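import Pool.Agent.K3h16.MI.Stm

set_option autoImplicit false

open MeasureTheory Set Filter Topology
open scoped ContDiff

namespace Pool.Agent.K3h95.MI

open Pool.Agent.K3h16.MI

theorem continuous_pd {m n : ℕ} {γ : E m → E n} (h : ContDiff ℝ ∞ γ) (b : Fin m) :
    Continuous fun u => pd γ u b :=
  (h.continuous_fderiv (by simp)).clm_apply continuous_const

theorem continuous_jac {m n : ℕ} {γ : E m → E n} (h : ContDiff ℝ ∞ γ) :
    Continuous fun u => jac γ u := by
  unfold jac pairing
  refine Real.continuous_sqrt.comp ?_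
  refine Continuous.matrix_det ?_
  refine continuous_matrix fun i j => ?_
  exact (continuous_pd h i).inner (continuous_pd h j)

theorem measurableSet_range {m n : ℕ} {M : Set (E n)} (hM : IsCompact M) {γ : E m → E n}
    (hγ : IsParam M γ) : MeasurableSet (range γ) := by
  obtain ⟨V, hV, h⟩ := hγ.open_range
  rw [h]
  exact hM.isClosed.measurableSet.inter hV.measurableSet

theorem t_CHI : S_CHI := by
  intro m n M e v h γ hγ f hf
  have hr := measurableSet_range h.compact hγ
  have hemb : MeasurableEmbedding γ := hγ.embedding.measurableEmbedding hr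
  have hae : ∀ᵐ x ∂v, x ∉ range γ → f x = 0 := by
    have h1 : ∀ᵐ x ∂v, x ∈ M := by
      rw [ae_iff]
      exact h.vol_compl
    filter_upwards [h1] with x hx hx' using hf x hx hx'
  have hmeas : Measurable fun u => ENNReal.ofReal (jac γ u) :=
    (continuous_jac hγ.smooth).measurable.ennreal_ofReal
  have hfin : ∀ᵐ u ∂(volume : Measure (E m)), ENNReal.ofReal (jac γ u) < ⊤ :=
    Eventually.of_forall fun u => ENNReal.ofReal_lt_top
  have hsm : ∀ u, (ENNReal.ofReal (jac γ u)).toReal • f (γ u) = (jac γ u : ℂ) * f (γ u) := by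
    intro u
    have h0 : 0 ≤ jac γ u := Real.sqrt_nonneg _
    rw [ENNReal.toReal_ofReal h0, Complex.real_smul]
  constructor
  · rw [← setIntegral_eq_integral_of_ae_compl_eq_zero hae, h.vol_param γ hγ, hemb.integral_map,
      integral_withDensity_eq_integral_toReal_smul hmeas hfin]
    simp only [hsm]
  · have h1 : Integrable f v ↔ IntegrableOn f (range γ) v :=
      ⟨fun h => h.integrableOn, fun h => h.integrable_of_ae_notMem_eq_zero hae⟩
    rw [h1, IntegrableOn, h.vol_param γ hγ, hemb.integrable_map_iff,
      integrable_withDensity_iff_integrable_smul' hmeas hfin]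
    simp only [Function.comp, hsm]

end Pool.Agent.K3h95.MI
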